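import Pool.Agent.Helper77.PPB.Goals2
import Pool.Agent.Helper79.PP.DMAP
import Pool.Agent.Helper46.PP.DUNQ
import Pool.Agent.Helper11.PP.DLIN
import Pool.Agent.Helper38.FD.Twist

/-!
# Project PPB (MP_fc6b1e_nt), packet B_CHR: classes and characters
-/

set_option autoImplicit false

namespace Pool.Agent.Helper39.PPB

open NumberField Polynomial Module IsDedekindDomain Pool.Agent.Helper51.SigLeo
open Pool.Agent.Helper51.RP Pool.Agent.Helper42.RD Pool.Agent.Helper11.LE Pool.Agent.Helper11.PP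
open Pool.Agent.Helper38.FD (Chr CutsOut)
open Pool.Agent.Helper79.PP (clp_eq clp_pow clp_eq_one gen_pow om_pow)

section chars

variable {K : Type} [Field K] {k : Type} [NormedField k]

/-- Characters that cut out `N` on elements which agree on `N`. -/
theorem chr_eq_pow {N : IntermediateField K (AlgebraicClosure K)}
    {χ : Chr K (AlgebraicClosure K) k} (hχ : CutsOut χ N)
    (g h : AlgebraicClosure K ≃ₐ[K] AlgebraicClosure K) {m : ℕ} (hm : ∀ y ∈ N, h y = (g ^ m) y) :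
    χ h = χ g ^ m := by
  have h1 : χ ((g ^ m)⁻¹ * h) = 1 := by
    rw [hχ]
    intro y hy
    change (g ^ m).symm (h y) = y
    rw [hm y hy, AlgEquiv.symm_apply_apply]
  rw [map_mul, map_inv, map_pow, inv_mul_eq_one] at h1
  exact h1.symm

/-- The character with given value at an automorphism that is not trivial on `N`. -/
theorem exists_chr {p : ℕ} (hp : p.Prime) {N : IntermediateField K (AlgebraicClosure K)}
    (hNp : finrank K N = p) (hNg : IsGalois K N) [Normal K (AlgebraicClosure K)]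
    {z : kˣ} (hz : IsPrimitiveRoot z p)
    (g : AlgebraicClosure K ≃ₐ[K] AlgebraicClosure K) (hg : ¬ ∀ y ∈ N, g y = y) :
    ∃ χ : Chr K (AlgebraicClosure K) k, CutsOut χ N ∧ χ g = z := by
  have hfin : FiniteDimensional K N := FiniteDimensional.of_finrank_pos (by
    rw [hNp]; exact hp.pos)
  have hcard : Nat.card (N ≃ₐ[K] N) = p := by rw [IsGalois.card_aut_eq_finrank, hNp]
  have : Fact p.Prime := ⟨hp⟩
  have hres : ∀ (h : AlgebraicClosure K ≃ₐ[K] AlgebraicClosure K),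
      AlgEquiv.restrictNormalHom N h = 1 ↔ ∀ y ∈ N, h y = y := by
    intro h
    constructor
    · intro h1 y hy
      have h2 := AlgEquiv.restrictNormalHom_apply N h ⟨y, hy⟩
      rw [h1] at h2
      exact h2.symm
    · intro h1
      ext y
      rw [AlgEquiv.restrictNormalHom_apply N h y, h1 y y.2]
      rfl
  have hg1 : AlgEquiv.restrictNormalHom N g ≠ 1 := fun h => hg ((hres g).1 h)
  have hord : orderOf (AlgEquiv.restrictNormalHom N g) = p := by
    refine orderOf_eq_prime ?_ hg1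
    have h1 := pow_card_eq_one' (G := N ≃ₐ[K] N) (x := AlgEquiv.restrictNormalHom N g)
    rwa [hcard] at h1
  have hgen : ∀ x : N ≃ₐ[K] N, x ∈ Subgroup.zpowers (AlgEquiv.restrictNormalHom N g) := by
    intro x
    obtain ⟨m, hm⟩ := mem_powers_of_prime_card (G := N ≃ₐ[K] N) hcard (g' := x) hg1
    refine ⟨(m : ℤ), ?_⟩
    show (AlgEquiv.restrictNormalHom N g) ^ (m : ℤ) = x
    rw [zpow_natCast]
    exact hm
  have hz1 : orderOf z = p := hz.eq_orderOf.symm
  have hd : orderOf z ∣ orderOf (AlgEquiv.restrictNormalHom N g) := by rw [hz1, hord]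
  refine ⟨(monoidHomOfForallMemZpowers hgen hd).comp (AlgEquiv.restrictNormalHom N), ?_, ?_⟩
  · intro h
    rw [← hres h, MonoidHom.comp_apply]
    constructor
    · intro h1
      obtain ⟨m, hm⟩ := mem_powers_of_prime_card (G := N ≃ₐ[K] N) hcard
        (g' := AlgEquiv.restrictNormalHom N h) hg1
      have hm' : (AlgEquiv.restrictNormalHom N g) ^ m = AlgEquiv.restrictNormalHom N h := hm
      rw [← hm', map_pow, monoidHomOfForallMemZpowers_apply_gen] at h1
      have h2 : p ∣ m := hz.dvd_of_pow_eq_one m h1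
      rw [← hm', ← orderOf_dvd_iff_pow_eq_one, hord]
      exact h2
    · intro h1
      rw [h1, map_one]
  · rw [MonoidHom.comp_apply, monoidHomOfForallMemZpowers_apply_gen]

end chars

/-- Equal powers of a primitive root of unity. -/
theorem modEq_of_pow_eq {F : Type} [Field F] {p : ℕ} {z : F} (hz : IsPrimitiveRoot z p)
    (hp : p ≠ 0) {i m : ℕ} (h : z ^ i = z ^ m) : i ≡ m [MOD p] := by
  have key : ∀ i m : ℕ, i ≤ m → z ^ i = z ^ m → i ≡ m [MOD p] := by
    intro i m him h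
    rw [Nat.modEq_iff_dvd' him]
    apply hz.dvd_of_pow_eq_one
    have h0 : z ^ i ≠ 0 := pow_ne_zero _ (hz.ne_zero hp)
    have h1 : z ^ i * z ^ (m - i) = z ^ i * 1 := by
      rw [← pow_add, Nat.add_sub_cancel' him, mul_one, h]
    exact mul_left_cancel₀ h0 h1
  rcases le_total i m with h1 | h1
  · exact key i m h1 h
  · exact (key m i h1 h.symm).symm

theorem pow_eq_of_modEq {M : Type} [CommMonoid M] {p : ℕ} {z : M} (hz : IsPrimitiveRoot z p)
    {i m : ℕ} (h : i ≡ m [MOD p]) : z ^ i = z ^ m := by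
  have h1 := hz.eq_orderOf
  rw [← pow_mod_orderOf, ← pow_mod_orderOf z m, ← h1, h]

section main

variable {p : ℕ} [hpF : Fact p.Prime] {K K₁ : Type} [Field K] [NumberField K] [Field K₁]
  [NumberField K₁] [Algebra K K₁] {ε : K₁} {j : K₁ →+* AlgebraicClosure K}
  {N : IntermediateField K (AlgebraicClosure K)}

omit hpF [NumberField K] [NumberField K₁] [Algebra K K₁] in
theorem pow_fix {g : AlgebraicClosure K ≃ₐ[K] AlgebraicClosure K} (hg : ∀ x : K₁, g (j x) = j x) :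
    ∀ (k : ℕ) (x : K₁), (g ^ k) (j x) = j x := by
  intro k x
  induction k with
  | zero => rfl
  | succ k ih => rw [pow_succ, AlgEquiv.mul_apply, hg, ih]

omit hpF [NumberField K] [NumberField K₁] [Algebra K K₁] in
theorem pow_act {g : AlgebraicClosure K ≃ₐ[K] AlgebraicClosure K} (hg : ∀ x : K₁, g (j x) = j x)
    {s : AlgebraicClosure K} {i : ℕ} (hs : g s = j ε ^ i * s) :
    ∀ k : ℕ, (g ^ k) s = j ε ^ (i * k) * s := by
  intro k
  induction k with
  | zero => simp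
  | succ k ih =>
    rw [pow_succ, AlgEquiv.mul_apply, hs, map_mul, map_pow, pow_fix hg, ih, Nat.mul_succ,
      pow_add]
    ring

omit [NumberField K] [NumberField K₁] [Algebra K K₁] in
/-- The action on the roots of the elements of the class. -/
theorem act_class (hε : IsPrimitiveRoot (j ε) p)
    {g : AlgebraicClosure K ≃ₐ[K] AlgebraicClosure K} (hg : ∀ x : K₁, g (j x) = j x) {a₁ : K₁ˣ}
    {s₁ : AlgebraicClosure K} (hs₁ : s₁ ^ p = j (a₁ : K₁)) (hgs : g s₁ = j ε * s₁) {a : K₁ˣ}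
    (ha : clp p a = clp p a₁) {s : AlgebraicClosure K} (hs : s ^ p = j (a : K₁)) :
    g s = j ε * s := by
  have hne : NeZero p := ⟨hpF.out.ne_zero⟩
  have hj0 : ∀ b : K₁ˣ, j (b : K₁) ≠ 0 := fun b => by
    rw [Ne, map_eq_zero_iff _ j.injective]
    exact b.ne_zero
  have hs0 : s₁ ≠ 0 := by
    rintro rfl
    rw [zero_pow hpF.out.ne_zero] at hs₁
    exact hj0 a₁ hs₁.symm
  obtain ⟨y, rfl⟩ := clp_eq.1 ha.symm
  have h1 : (s / (s₁ * j (y : K₁))) ^ p = 1 := by
    rw [div_pow, mul_pow, hs, hs₁, Units.val_mul, Units.val_pow_eq_pow_val, map_mul, map_pow]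
    exact div_self (mul_ne_zero (hj0 a₁) (pow_ne_zero _ (hj0 y)))
  obtain ⟨e, -, he⟩ := hε.eq_pow_of_pow_eq_one h1
  have h2 : s = j ε ^ e * (s₁ * j (y : K₁)) := by
    rw [he, div_mul_cancel₀ _ (mul_ne_zero hs0 (hj0 y))]
  rw [h2, map_mul, map_mul, map_pow, hg, hgs, hg]
  ring

omit [NumberField K] [NumberField K₁] [Algebra K K₁] in
/-- The data for a class which belongs to `N`. -/
theorem not_fix (hε : IsPrimitiveRoot (j ε) p) {a₁ : K₁ˣ} (hgen : Gen p j a₁ N)
    {s₁ : AlgebraicClosure K} (hs₁ : s₁ ^ p = j (a₁ : K₁))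
    {g : AlgebraicClosure K ≃ₐ[K] AlgebraicClosure K} (hg : ∀ x : K₁, g (j x) = j x)
    (hgs : g s₁ = j ε * s₁) : ¬ ∀ y ∈ N, g y = y := by
  intro h
  have h1 := hgen s₁ hs₁ g h hg
  rw [hgs] at h1
  have hs0 : s₁ ≠ 0 := by
    rintro rfl
    rw [zero_pow hpF.out.ne_zero] at hs₁
    have h2 : (a₁ : K₁) = 0 := by
      rw [← map_eq_zero_iff j j.injective]
      exact hs₁.symm
    exact a₁.ne_zero h2
  exact hε.ne_one hpF.out.one_lt ((mul_eq_right₀ hs0).1 h1)

omit hpF [NumberField K] [NumberField K₁] [Algebra K K₁] in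
theorem gen_act {g h : AlgebraicClosure K ≃ₐ[K] AlgebraicClosure K}
    (hg : ∀ x : K₁, g (j x) = j x) (hh : ∀ x : K₁, h (j x) = j x) {m : ℕ}
    (hm : ∀ y ∈ N, h y = (g ^ m) y) {a : K₁ˣ} (hgen : Gen p j a N) {s : AlgebraicClosure K}
    (hs : s ^ p = j (a : K₁)) : h s = (g ^ m) s := by
  have h1 : ∀ y ∈ N, ((g ^ m)⁻¹ * h) y = y := by
    intro y hy
    change (g ^ m).symm (h y) = y
    rw [hm y hy, AlgEquiv.symm_apply_apply]
  have h2 : ∀ x : K₁, ((g ^ m)⁻¹ * h) (j x) = j x := by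
    intro x
    change (g ^ m).symm (h (j x)) = j x
    rw [hh, AlgEquiv.symm_apply_eq, pow_fix hg]
  have h3 : (g ^ m).symm (h s) = s := hgen s hs _ h1 h2
  rwa [AlgEquiv.symm_apply_eq] at h3

end main

theorem b_chr : Pool.Agent.Helper77.PPB.B_CHR := by
  intro p hpF K K₁ _ _ _ _ _ ε hC j hj εk hεk nf hnf hcard
  classical
  have hp : p.Prime := hpF.out
  have hne : NeZero p := ⟨hp.ne_zero⟩
  have hε : IsPrimitiveRoot (j ε) p := hC.prim.map_of_injective j.injective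
  have hj0 : ∀ b : K₁ˣ, j (b : K₁) ≠ 0 := fun b => by
    rw [Ne, map_eq_zero_iff _ j.injective]
    exact b.ne_zero
  have hroot0 : ∀ (a : K₁ˣ) (s : AlgebraicClosure K), s ^ p = j (a : K₁) → s ≠ 0 := by
    rintro a s hs rfl
    rw [zero_pow hp.ne_zero] at hs
    exact hj0 a hs.symm
  have hjε : j ε ≠ 0 := hε.ne_zero hp.ne_zero
  -- the choice for a class
  have hch : ∀ c ∈ BSet p K ε, ∃ (a₁ : K₁ˣ) (s₁ : AlgebraicClosure K)
      (g₁ : AlgebraicClosure K ≃ₐ[K] AlgebraicClosure K), clp p a₁ = c ∧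
      OmType p K ε (a₁ : K₁) ∧ s₁ ^ p = j (a₁ : K₁) ∧
      (∀ x : K₁, g₁ (j x) = j x) ∧ g₁ s₁ = j ε * s₁ := by
    rintro c ⟨hc1, a, hac, hom⟩
    have hna : ¬ Pw p a := by
      rw [← clp_eq_one, hac]
      exact hc1
    obtain ⟨s, hs⟩ := IsAlgClosed.exists_pow_nat_eq (j (a : K₁)) hp.pos
    obtain ⟨g, hgj, hgs⟩ := exists_move hp hC.prim j hj hna hs
    exact ⟨a, s, g, hac, hom, hs, hgj, hgs⟩
  -- existence of the character
  have hex : ∀ c : ClP p K₁, ∃ χ : Chr K (AlgebraicClosure K) ℂ_[p], c ∈ BSet p K ε →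
      (CutsOut χ (nf c) ∧ ∀ a : K₁ˣ, clp p a = c →
      ∀ s : AlgebraicClosure K, s ^ p = j (a : K₁) →
      ∀ g : AlgebraicClosure K ≃ₐ[K] AlgebraicClosure K, (∀ x : K₁, g (j x) = j x) → ∀ i : ℕ,
        g s = j ε ^ i * s → χ g = εk ^ i) := by
    intro c
    by_cases hc : c ∈ BSet p K ε
    · obtain ⟨a₁, s₁, g₁, hac, -, hs₁, hg₁, hgs₁⟩ := hch c hc
      obtain ⟨⟨hNp, hNg⟩, hgen⟩ := hnf c hc
      have hnt := not_fix hε (hgen a₁ hac) hs₁ hg₁ hgs₁
      obtain ⟨χ, hχ, hχg⟩ := exists_chr hp hNp hNg hεk g₁ hnt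
      refine ⟨χ, fun _ => ⟨hχ, ?_⟩⟩
      intro a ha s hs g hg i hgs
      obtain ⟨m, hm⟩ := exists_pow_eq_on hp hNp hNg g₁ g hnt
      have h1 := gen_act hg₁ hg hm (hgen a ha) hs
      have h2 : g₁ s = j ε ^ 1 * s := by
        rw [pow_one]
        exact act_class hε hg₁ hs₁ hgs₁ (ha.trans hac.symm) hs
      rw [pow_act hg₁ h2, hgs, one_mul] at h1
      have h3 : j ε ^ i = j ε ^ m := mul_right_cancel₀ (hroot0 a s hs) h1
      have h4 : i ≡ m [MOD p] := modEq_of_pow_eq hε hp.ne_zero h3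
      rw [chr_eq_pow hχ g₁ g hm, hχg]
      exact (pow_eq_of_modEq hεk h4).symm
    · exact ⟨1, fun h => absurd h hc⟩
  choose cf hcf using hex
  refine ⟨cf, fun c hc => hcf c hc, ?_⟩
  intro N hN φ hφ
  obtain ⟨hNp, hNg⟩ := hN
  -- a class of `N`
  have hne1 : {c | c ∈ BSet p K ε ∧ nf c = N}.Nonempty := by
    apply Set.nonempty_of_ncard_ne_zero
    rw [hcard N ⟨hNp, hNg⟩]
    have := hp.two_le
    omega
  obtain ⟨c₀, hc₀, hc₀N⟩ := hne1
  obtain ⟨a₀, s₀, g₀, hac, hom, hs₀, hg₀, hgs₀⟩ := hch c₀ hc₀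
  have hgen₀ : Gen p j a₀ N := by
    rw [← hc₀N]
    exact (hnf c₀ hc₀).2 a₀ hac
  have hnt₀ := not_fix hε hgen₀ hs₀ hg₀ hgs₀
  have hord₀ : φ g₀ ^ p = 1 := by
    have hfin : FiniteDimensional K N := FiniteDimensional.of_finrank_pos (by
      rw [hNp]; exact hp.pos)
    have h2 := Pool.Agent.Helper38.FD.pow_card_desc hφ g₀
    rwa [hNp] at h2
  have hεk' : IsPrimitiveRoot ((εk : ℂ_[p]ˣ) : ℂ_[p]) p := IsPrimitiveRoot.coe_units_iff.2 hεk
  have hφt0 : ∃ t < p, εk ^ t = φ g₀ := by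
    have h1 : ((φ g₀ : ℂ_[p]ˣ) : ℂ_[p]) ^ p = 1 := by
      rw [← Units.val_pow_eq_pow_val, hord₀, Units.val_one]
    obtain ⟨t, ht, h2⟩ := hεk'.eq_pow_of_pow_eq_one h1
    exact ⟨t, ht, Units.ext (by rw [Units.val_pow_eq_pow_val]; exact h2)⟩
  obtain ⟨t, ht, hφt⟩ := hφt0
  have hpt : ¬ p ∣ t := by
    intro h
    have ht0 : t = 0 := Nat.eq_zero_of_dvd_of_lt h ht
    rw [ht0, pow_zero] at hφt
    exact hnt₀ ((hφ g₀).1 hφt.symm)
  have hcp : clp p a₀ ^ p = 1 := by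
    rw [← clp_pow, clp_eq_one]
    exact ⟨a₀, rfl⟩
  have hc₀1 : clp p a₀ ≠ 1 := by
    rw [hac]
    exact hc₀.1
  have hord : orderOf (clp p a₀) = p := orderOf_eq_prime hcp hc₀1
  have hne2 : clp p a₀ ^ t ≠ 1 := by
    intro h
    have h9 := orderOf_dvd_of_pow_eq_one h
    rw [hord] at h9
    exact hpt h9
  have hB : clp p a₀ ^ t ∈ BSet p K ε := by
    refine ⟨hne2, a₀ ^ t, rfl, ?_⟩
    rw [Units.val_pow_eq_pow_val]
    exact om_pow hom t
  have hnfN : nf (clp p a₀ ^ t) = N := by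
    obtain ⟨hNc, hgc⟩ := hnf _ hB
    refine Pool.Agent.Helper46.PP.d_unq p K K₁ ε hC j hj (a₀ ^ t) ?_ _ hNc N ⟨hNp, hNg⟩
      (hgc _ rfl) (gen_pow hC.prim hgen₀ t)
    rw [← clp_eq_one, clp_pow]
    exact hne2
  refine ⟨clp p a₀ ^ t, ⟨hB, hnfN, ?_⟩, ?_⟩
  · -- the two characters agree
    obtain ⟨hcut, hkum⟩ := hcf _ hB
    rw [hnfN] at hcut
    have h1 : cf (clp p a₀ ^ t) g₀ = εk ^ t := by
      refine hkum (a₀ ^ t) rfl (s₀ ^ t) ?_ g₀ hg₀ t ?_
      · rw [← pow_mul, mul_comm t p, pow_mul, hs₀, Units.val_pow_eq_pow_val, map_pow]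
      · rw [map_pow, hgs₀, mul_pow]
    refine MonoidHom.ext fun h => ?_
    obtain ⟨m, hm⟩ := exists_pow_eq_on hp hNp hNg g₀ h hnt₀
    rw [chr_eq_pow hcut g₀ h hm, chr_eq_pow hφ g₀ h hm, h1, hφt]
  · -- uniqueness
    have huniq : ∀ c c' : ClP p K₁, c ∈ BSet p K ε → c' ∈ BSet p K ε → nf c = N → nf c' = N →
        cf c = cf c' → c' = c := by
      intro c c' hc hc' hcN hcN' hcc
      obtain ⟨a, s, g, hac, -, hs, hg, hgs⟩ := hch c hc
      obtain ⟨a', s', -, hac', -, hs', -, -⟩ := hch c' hc'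
      have hga : Gen p j a N := by
        rw [← hcN]
        exact (hnf c hc).2 a hac
      have hga' : Gen p j a' N := by
        rw [← hcN']
        exact (hnf c' hc').2 a' hac'
      have hnt := not_fix hε hga hs hg hgs
      have h1 : cf c g = εk ^ 1 := (hcf c hc).2 a hac s hs g hg 1 (by rw [pow_one]; exact hgs)
      have hgs1 : (g s' / s') ^ p = 1 := by
        rw [div_pow, ← map_pow, hs', hg, div_self (hj0 a')]
      obtain ⟨i, -, hi⟩ := hε.eq_pow_of_pow_eq_one hgs1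
      have hi' : g s' = j ε ^ i * s' := by rw [hi, div_mul_cancel₀ _ (hroot0 a' s' hs')]
      have h2 : cf c' g = εk ^ i := (hcf c' hc').2 a' hac' s' hs' g hg i hi'
      rw [← hcc, h1] at h2
      have h3 : 1 ≡ i [MOD p] := by
        refine modEq_of_pow_eq hεk' hp.ne_zero ?_
        rw [← Units.val_pow_eq_pow_val, ← Units.val_pow_eq_pow_val, h2]
      have h4 : g s' = j ε * s' := by
        rw [hi', ← pow_eq_of_modEq hε h3, pow_one]
      have hfix : ∃ y : K₁, j y = s' / s := by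
        refine exists_of_fixed j hj fun h hh => ?_
        obtain ⟨m, hm⟩ := exists_pow_eq_on hp hNp hNg g h hnt
        have h5 := gen_act hg hh hm hga hs
        have h6 := gen_act hg hh hm hga' hs'
        have h7 : g s = j ε ^ 1 * s := by rw [pow_one]; exact hgs
        have h8 : g s' = j ε ^ 1 * s' := by rw [pow_one]; exact h4
        rw [map_div₀, h5, h6, pow_act hg h7 m, pow_act hg h8 m]
        exact mul_div_mul_left _ _ (pow_ne_zero _ hjε)
      obtain ⟨y, hy⟩ := hfix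
      have hy0 : y ≠ 0 := by
        rintro rfl
        rw [map_zero] at hy
        exact div_ne_zero (hroot0 a' s' hs') (hroot0 a s hs) hy.symm
      rw [← hac, ← hac', eq_comm, clp_eq]
      refine ⟨Units.mk0 y hy0, Units.ext (j.injective ?_)⟩
      rw [Units.val_mul, Units.val_pow_eq_pow_val, map_mul, map_pow, Units.val_mk0, hy, ← hs,
        ← hs', div_pow, mul_div_cancel₀ _ (pow_ne_zero _ (hroot0 a s hs))]
    rintro c' ⟨hc', hcN', hcφ⟩
    refine huniq _ _ hB hc' hnfN hcN' ?_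
    rw [hcφ]
    obtain ⟨hcut, hkum⟩ := hcf _ hB
    rw [hnfN] at hcut
    have h1 : cf (clp p a₀ ^ t) g₀ = εk ^ t := by
      refine hkum (a₀ ^ t) rfl (s₀ ^ t) ?_ g₀ hg₀ t ?_
      · rw [← pow_mul, mul_comm t p, pow_mul, hs₀, Units.val_pow_eq_pow_val, map_pow]
      · rw [map_pow, hgs₀, mul_pow]
    refine MonoidHom.ext fun h => ?_
    obtain ⟨m, hm⟩ := exists_pow_eq_on hp hNp hNg g₀ h hnt₀
    rw [chr_eq_pow hcut g₀ h hm, chr_eq_pow hφ g₀ h hm, h1, hφt]

end Pool.Agent.Helper39.PPB
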